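import Pool.Agent.R250.AT3

set_option autoImplicit false

/-!
# MP_850839: the Kakeya inequality for tubes, averaged over twists of arbitrary families

Let `n = d + 1`.  Points of `ℝ^n` are written `(x, t)`, `x ∈ ℝ^d`, `t ∈ ℝ`.  For a finite
`δ`-separated set `V ⊆ ℝ^d` of directions `(v, 1)` and an arbitrary choice of positions `p v`, the
tube number `v` is the `δ`-tube around the segment `{(p v + t v, t) : |t| ≤ 1}`.  The conjectured
inequality for the `L^q` norm of the counting function is proved, without any loss, on average over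
a parameter:

1. *A general criterion.*  The positions are given by a random map `b`, such that for `v ≠ w` the
   expected length of the set of the heights `|t| ≤ 1` at which the lines `v` and `w` are at
   distance at most `r` is at most `A (r / |v - w|)^s`.  Range: `q > 1 + 1/s` (`1 < s ≤ d`).
2. *Arbitrary families, all `n`.*  Arbitrary positions `a v` are perturbed by a transversal family
   `g_l v`, where the law of the parameter `l` has dimension `α`.  Range: `q > 1 + 1/(1 + α)`.
3. *Twists in `ℝ³`.*  Arbitrary positions `a v` are perturbed by `l J v`, `l ∈ ℝ`, `J` the rotation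
   of the plane by 90 degrees.  For `l` uniformly distributed in `[-L, L]` the full conjectured
   range `q > 3/2` is obtained; in particular an arbitrarily small twist suffices.  For laws of
   dimension `α` of the parameter the range is `q > 1 + 1/(1 + α)`.
4. *Diagonal perturbations, all `n ≥ 3`.*  Arbitrary positions `a v` are perturbed by
   `(0, m_1 v_1, ..., m_(n-2) v_(n-2))`: full range `q > n/(n-1)` for Lebesgue measure, and
   `q > 1 + 1/(α (n-1))` for products of measures of dimension `α > 1/(n-1)`.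

In 2, 3 and 4 the inequality also holds, for every sequence of families and scales, for almost every
parameter with a loss `(k + 1)^2` for the family number `k`.
-/

namespace Pool.Agent.Results.MP_850839_an.AveragedTwists

open MeasureTheory Set Metric
open scoped ENNReal

/-- Euclidean space. -/
abbrev Rd (d : ℕ) : Type := EuclideanSpace ℝ (Fin d)

/-- The tube of radius `δ` around the segment `{(a + t v, t) : |t| ≤ 1}` of `ℝ^d × ℝ`. -/
def tube {d : ℕ} (δ : ℝ) (a v : Rd d) : Set (Rd d × ℝ) :=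
  {z | |z.2| ≤ 1 ∧ ‖z.1 - (a + z.2 • v)‖ ≤ δ}

/-- `δ > 0` and the directions in `V` are `δ`-separated. -/
def Separated {d : ℕ} (δ : ℝ) (V : Finset (Rd d)) : Prop :=
  0 < δ ∧ ∀ v ∈ V, ∀ w ∈ V, v ≠ w → δ ≤ ‖v - w‖

/-- The `q`-th power of the `L^q` norm of the sum of the indicator functions of the tubes with
directions `v ∈ V` and positions `p v`. -/
noncomputable def size {d : ℕ} (q δ : ℝ) (V : Finset (Rd d)) (p : Rd d → Rd d) : ℝ≥0∞ :=
  ∫⁻ z : Rd d × ℝ, (∑ v ∈ V, (tube δ (p v) v).indicator (fun _ => (1 : ℝ≥0∞)) z) ^ q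

/-- The `q`-th power of the right-hand side of the conjectured inequality for `N` tubes, without
the constant. -/
noncomputable def rhs (d : ℕ) (q δ : ℝ) (N : ℕ) : ℝ := δ ^ d * (N : ℝ) ^ (q - 1 / (d : ℝ))

/-- For `v ≠ w` in `V` the expected length of the set of the heights `|t| ≤ 1` at which the lines
number `v` and `w` of the random family `b` are at distance at most `r` is at most
`A (r / |v - w|) ^ s`. -/
def Spread {d : ℕ} {Ω : Type} [MeasurableSpace Ω] (P : Measure Ω) (V : Finset (Rd d))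
    (b : Ω → Rd d → Rd d) (A s : ℝ) : Prop :=
  ∀ v ∈ V, ∀ w ∈ V, v ≠ w → ∀ r : ℝ, 0 < r →
    (P.prod (volume.restrict (Icc (-1 : ℝ) 1)))
      {x | ‖(b x.1 v + x.2 • v) - (b x.1 w + x.2 • w)‖ ≤ r}
        ≤ ENNReal.ofReal (A * (r / ‖v - w‖) ^ s)

/-- `μ` has mass at most `M` and dimension at least `α`: balls of radius `r` have measure at most
`A r ^ α`. -/
def Dimensional {Λ : Type} [PseudoMetricSpace Λ] [MeasurableSpace Λ] (μ : Measure Λ) (M A α : ℝ) :
    Prop :=
  μ univ ≤ ENNReal.ofReal M ∧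
    ∀ (x : Λ) (r : ℝ), 0 < r → μ (closedBall x r) ≤ ENNReal.ofReal (A * r ^ α)

/-- `μ` is carried by `[-L, L]` and intervals of length `r` have measure at most `A r ^ α`. -/
def Regular (μ : Measure ℝ) (A α L : ℝ) : Prop :=
  μ (Icc (-L) L)ᶜ = 0 ∧ ∀ a r : ℝ, 0 ≤ r → μ (Icc a (a + r)) ≤ ENNReal.ofReal (A * r ^ α)

/-- The family `g` with parameter `l` is transversal: if the parameter and the height are changed,
the difference of the points of two lines `v`, `w` of that height changes by at least a multiple of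
`|v - w|` times the change of the parameter and of the height. -/
def Transversal {d : ℕ} {Λ : Type} [PseudoMetricSpace Λ] (κ : ℝ) (g : Λ → Rd d → Rd d) : Prop :=
  ∀ (l m : Λ) (t u : ℝ) (v w : Rd d),
    κ * max (dist l m) |t - u| * ‖v - w‖ ≤
      ‖((g l v - g l w) + t • (v - w)) - ((g m v - g m w) + u • (v - w))‖

/-- **The conjectured inequality on average over the parameter `l`**, for ALL families of tubes
perturbed by `g l`, with the constant `C`; and **for almost every parameter, for all the families of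
a sequence** (for instance at all scales `2^(-k)`), with the loss `(k + 1) ^ 2`. -/
def KakeyaOnAverage {d : ℕ} {Λ : Type} [MeasurableSpace Λ] (μ : Measure Λ) (g : Λ → Rd d → Rd d)
    (q C : ℝ) : Prop :=
  (∀ (a : Rd d → Rd d) (δ : ℝ) (V : Finset (Rd d)), Separated δ V →
    ∫⁻ l, size q δ V (fun v => a v + g l v) ∂μ ≤ ENNReal.ofReal (C * rhs d q δ V.card)) ∧
  (∀ (a : ℕ → Rd d → Rd d) (δ : ℕ → ℝ) (V : ℕ → Finset (Rd d)), (∀ k, Separated (δ k) (V k)) →
    ∀ᵐ l ∂μ, ∃ B : ℝ, ∀ k : ℕ, size q (δ k) (V k) (fun v => a k v + g l v) ≤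
      ENNReal.ofReal (B * ((k : ℝ) + 1) ^ 2 * rhs d q (δ k) (V k).card))

/-- The twist `l J v` of the plane, `J` the rotation by 90 degrees. -/
noncomputable def twist (l : ℝ) (v : Rd 2) : Rd 2 := l • WithLp.toLp 2 ![-(v 1), v 0]

/-- The diagonal perturbation `(0, m_1 v_1, ..., m_D v_D)`. -/
noncomputable def diagonal {D : ℕ} (m : Fin D → ℝ) (v : Rd (D + 1)) : Rd (D + 1) :=
  WithLp.toLp 2 (fun j => (Fin.cons 0 m : Fin (D + 1) → ℝ) j * v j)

open Pool.Agent.R250.AT

theorem rhs_nonneg (d : ℕ) (q : ℝ) {δ : ℝ} (hδ : 0 < δ) (N : ℕ) : 0 ≤ rhs d q δ N := by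
  unfold rhs
  positivity

/-- From the average for all families to the full statement. -/
theorem of_average {d : ℕ} {Λ : Type} [MeasurableSpace Λ] {μ : Measure Λ} {g : Λ → Rd d → Rd d}
    (hg : ∀ v, Measurable (fun l => g l v)) {q C : ℝ} (hC : 0 ≤ C)
    (h : ∀ (a : Rd d → Rd d) (δ : ℝ) (V : Finset (Rd d)), Separated δ V →
      ∫⁻ l, size q δ V (fun v => a v + g l v) ∂μ ≤ ENNReal.ofReal (C * rhs d q δ V.card)) :
    KakeyaOnAverage μ g q C := by
  refine ⟨h, fun a δ V hV => ?_⟩
  exact all_scales μ (f := fun k l => size q (δ k) (V k) (fun v => a k v + g l v))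
    (fun k => measurable_size q (δ k) (V k) (p := fun l v => a k v + g l v)
      (fun v _ => measurable_const.add (hg v))) hC
    (fun k => rhs_nonneg d q (hV k).1 _) (fun k => h (a k) (δ k) (V k) (hV k))

theorem transversal {d : ℕ} {α q M A κ : ℝ} (hα : 0 < α) (hαd : α ≤ d - 1)
    (hq : 1 + 1 / (1 + α) < q) (hM : 0 ≤ M) (hA : 0 ≤ A) (hκ : 0 < κ) : ∃ C : ℝ,
      ∀ (Λ : Type) [PseudoMetricSpace Λ] [MeasurableSpace Λ] (μ : Measure Λ) [SFinite μ],
      Dimensional μ M A α → ∀ g : Λ → Rd d → Rd d, (∀ v, Measurable (fun l => g l v)) →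
      Transversal κ g → KakeyaOnAverage μ g q C := by
  obtain ⟨C, hC, h⟩ := crit (d := d) (s := 1 + α) (q := q) (M := M)
    (A := 2 * A * (2 / κ) ^ (1 + α)) (by linarith) (by linarith) hq hM (by positivity)
  refine ⟨C, ?_⟩
  intro Λ _ _ μ _ hμ g hg hT
  refine of_average hg hC ?_
  intro a δ V hV
  exact h Λ μ hμ.1 δ hV.1 V hV.2 (fun l v => a v + g l v)
    (fun v _ => measurable_const.add (hg v))
    (fun v _ w _ hvw r hr => spread_of_trans hκ hA hμ.2 hT a v w hvw r hr)

theorem norm_sq_two (x : Rd 2) : ‖x‖ ^ 2 = x 0 ^ 2 + x 1 ^ 2 := by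
  rw [EuclideanSpace.norm_sq_eq, Fin.sum_univ_two]
  simp

theorem twist_transversal : Transversal 1 twist := by
  intro l m t u v w
  rw [one_mul, Real.dist_eq]
  unfold twist
  set x : Rd 2 := v - w with hx
  set z : Rd 2 := ((l • (WithLp.toLp 2 ![-(v 1), v 0] : Rd 2) -
    l • WithLp.toLp 2 ![-(w 1), w 0]) + t • x) -
    ((m • (WithLp.toLp 2 ![-(v 1), v 0] : Rd 2) - m • WithLp.toLp 2 ![-(w 1), w 0]) + u • x)
    with hz
  have h0 : z 0 = -(l - m) * x 1 + (t - u) * x 0 := by
    rw [hz, hx]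
    simp
    ring
  have h1 : z 1 = (l - m) * x 0 + (t - u) * x 1 := by
    rw [hz, hx]
    simp
    ring
  have h2 : ‖z‖ ^ 2 = ((l - m) ^ 2 + (t - u) ^ 2) * ‖x‖ ^ 2 := by
    rw [norm_sq_two, norm_sq_two, h0, h1]
    ring
  have h3 : (max |l - m| |t - u|) ^ 2 ≤ (l - m) ^ 2 + (t - u) ^ 2 := by
    rcases max_cases |l - m| |t - u| with ⟨h, _⟩ | ⟨h, _⟩
    · rw [h, sq_abs]; nlinarith [sq_nonneg (t - u)]
    · rw [h, sq_abs]; nlinarith [sq_nonneg (l - m)]
  have h4 : (max |l - m| |t - u| * ‖x‖) ^ 2 ≤ ‖z‖ ^ 2 := by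
    rw [h2, mul_pow]
    gcongr
  exact (sq_le_sq₀ (by positivity) (norm_nonneg _)).1 h4

theorem twist_meas (v : Rd 2) : Measurable (fun l : ℝ => twist l v) := by
  unfold twist
  exact measurable_id.smul_const _

theorem leb_dim {L : ℝ} :
    Dimensional ((volume : Measure ℝ).restrict (Icc (-L) L)) (2 * L) 2 1 := by
  refine ⟨?_, ?_⟩
  · rw [Measure.restrict_apply_univ, Real.volume_Icc]
    apply ENNReal.ofReal_le_ofReal
    linarith
  · intro x r _
    refine (Measure.restrict_apply_le _ _).trans ?_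
    rw [Real.volume_closedBall, Real.rpow_one]

/-- **The Kakeya inequality for tubes on average over twists of arbitrary families.** -/
theorem result :
    -- (1) the general criterion
    (∀ (d : ℕ) (s q M A : ℝ), 1 < s → s ≤ d → 1 + 1 / s < q → 0 ≤ M → 0 ≤ A → ∃ C : ℝ,
      ∀ (Ω : Type) [MeasurableSpace Ω] (P : Measure Ω) [SFinite P], P univ ≤ ENNReal.ofReal M →
      ∀ (δ : ℝ) (V : Finset (Rd d)), Separated δ V → ∀ b : Ω → Rd d → Rd d,
      (∀ v ∈ V, Measurable (fun ω => b ω v)) → Spread P V b A s →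
      ∫⁻ ω, size q δ V (b ω) ∂P ≤ ENNReal.ofReal (C * rhs d q δ V.card)) ∧
    -- (2) arbitrary families perturbed by a transversal family
    (∀ (d : ℕ) (α q M A κ : ℝ), 0 < α → α ≤ d - 1 → 1 + 1 / (1 + α) < q → 0 ≤ M → 0 ≤ A →
      0 < κ → ∃ C : ℝ,
      ∀ (Λ : Type) [PseudoMetricSpace Λ] [MeasurableSpace Λ] (μ : Measure Λ) [SFinite μ],
      Dimensional μ M A α → ∀ g : Λ → Rd d → Rd d, (∀ v, Measurable (fun l => g l v)) →
      Transversal κ g → KakeyaOnAverage μ g q C) ∧
    -- (3) twists of arbitrary families in three dimensions: the full range for Lebesgue measure,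
    -- a good twist in every interval `[-L, L]`, and measures of smaller dimension
    (∀ q L : ℝ, 3 / 2 < q → 0 < L → ∃ C : ℝ,
      KakeyaOnAverage ((volume : Measure ℝ).restrict (Icc (-L) L)) twist q C ∧
      ∀ (a : Rd 2 → Rd 2) (δ : ℝ) (V : Finset (Rd 2)), Separated δ V →
        ∃ l ∈ Icc (-L) L, size q δ V (fun v => a v + twist l v) ≤
          ENNReal.ofReal (C * rhs 2 q δ V.card)) ∧
    (∀ α q M A : ℝ, 0 < α → α ≤ 1 → 1 + 1 / (1 + α) < q → 0 ≤ M → 0 ≤ A → ∃ C : ℝ,
      ∀ (μ : Measure ℝ) [SFinite μ], Dimensional μ M A α → KakeyaOnAverage μ twist q C) ∧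
    -- (4) diagonal perturbations of arbitrary families in all dimensions
    (∀ (D : ℕ) (α q A L : ℝ), 1 / ((D : ℝ) + 1) < α → α ≤ 1 → 1 + 1 / (α * ((D : ℝ) + 1)) < q →
      0 ≤ A → 0 < L → ∃ C : ℝ, ∀ μ : Fin D → Measure ℝ, (∀ j, Regular (μ j) A α L) →
      KakeyaOnAverage (Measure.pi μ) diagonal q C) := by
  have htw : ∀ α q M A : ℝ, 0 < α → α ≤ 1 → 1 + 1 / (1 + α) < q → 0 ≤ M → 0 ≤ A → ∃ C : ℝ,
      ∀ (μ : Measure ℝ) [SFinite μ], Dimensional μ M A α → KakeyaOnAverage μ twist q C := by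
    intro α q M A hα hα1 hq hM hA
    obtain ⟨C, hC⟩ := transversal (d := 2) (κ := 1) hα (by push_cast; linarith) hq hM hA one_pos
    exact ⟨C, fun μ _ hμ => hC ℝ μ hμ twist twist_meas twist_transversal⟩
  refine ⟨?_, ?_, ?_, htw, ?_⟩
  · intro d s q M A hs1 hsd hq hM hA
    obtain ⟨C, hC, h⟩ := crit (d := d) hs1 hsd hq hM hA
    exact ⟨C, fun Ω _ P _ hP δ V hV b hb hsp => h Ω P hP δ hV.1 V hV.2 b hb hsp⟩
  · intro d α q M A κ hα hαd hq hM hA hκ
    exact transversal hα hαd hq hM hA hκ
  · intro q L hq hL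
    obtain ⟨C, hC⟩ := htw 1 q (2 * L) 2 one_pos le_rfl (by norm_num; linarith) (by positivity)
      (by norm_num)
    have hK := hC ((volume : Measure ℝ).restrict (Icc (-L) L)) leb_dim
    set C' : ℝ := max |C| (|C| / (2 * L)) with hC'
    have h1 : C ≤ C' := (le_abs_self C).trans (le_max_left _ _)
    refine ⟨C', ⟨?_, hK.2⟩, ?_⟩
    · intro a δ V hV
      refine (hK.1 a δ V hV).trans (ENNReal.ofReal_le_ofReal ?_)
      exact mul_le_mul_of_nonneg_right h1 (rhs_nonneg 2 q hV.1 _)
    · intro a δ V hV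
      by_contra hcon
      push Not at hcon
      have hr := rhs_nonneg 2 q hV.1 V.card
      have h2 := hK.1 a δ V hV
      have h3 : ∫⁻ l in Icc (-L) L, ENNReal.ofReal (C' * rhs 2 q δ V.card) <
          ∫⁻ l in Icc (-L) L, size q δ V (fun v => a v + twist l v) := by
        apply setLIntegral_strict_mono measurableSet_Icc
        · rw [Real.volume_Icc]
          exact (ENNReal.ofReal_pos.2 (by linarith)).ne'
        · exact measurable_size q δ V (p := fun l v => a v + twist l v)
            (fun v _ => measurable_const.add (twist_meas v))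
        · rw [setLIntegral_const, Real.volume_Icc]
          exact ENNReal.mul_ne_top ENNReal.ofReal_ne_top ENNReal.ofReal_ne_top
        · exact Filter.Eventually.of_forall (fun l hl => hcon l hl)
      have h4 : ENNReal.ofReal (C * rhs 2 q δ V.card) ≤
          ∫⁻ l in Icc (-L) L, ENNReal.ofReal (C' * rhs 2 q δ V.card) := by
        rw [setLIntegral_const, Real.volume_Icc, ← ENNReal.ofReal_mul (by positivity)]
        apply ENNReal.ofReal_le_ofReal
        have h5 : |C| / (2 * L) ≤ C' := le_max_right _ _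
        have h6 : C ≤ C' * (2 * L) := by
          rw [div_le_iff₀ (by positivity)] at h5
          exact (le_abs_self C).trans h5
        calc C * rhs 2 q δ V.card ≤ C' * (2 * L) * rhs 2 q δ V.card := by gcongr
          _ = _ := by ring
      exact absurd (h2.trans h4) (not_le.2 h3)
  · intro D α q A L hα hα1 hq hA hL
    have hD : (0:ℝ) < D + 1 := by positivity
    have hα' : 1 < α * ((D:ℝ) + 1) := by rwa [div_lt_iff₀ hD] at hα
    obtain ⟨C, hC, h⟩ := diag_avg D hα' hα1 hq hA hL
    refine ⟨C, fun μ hμ => ?_⟩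
    refine of_average (fun v => diag_meas v) hC ?_
    intro a δ V hV
    exact h μ hμ δ hV.1 V hV.2 a

end Pool.Agent.Results.MP_850839_an.AveragedTwists
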