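import Pool.Agent.R251.Osl.Sphere

set_option autoImplicit false

/-!
# MP_850839: families of `δ`-tubes whose positions are a one-sided Lipschitz function of the
direction

In `ℝ^n`, `n ≥ 2`, consider any finite family `T i` of `δ`-tubes (length one, radius `δ`) with
`δ`-separated orientations `e i` and centres `a i`, `|a i| ≤ R`, that satisfy the one-sided condition
`(a i - a j) · (e i - e j) ≥ - L |e i - e j|²` for all `i, j` (or the opposite one, `≤ L |e i - e j|²`).
Nothing else is assumed: the positions may depend on the direction in a discontinuous way (for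
instance gradients of semiconvex functions, monotone families), the number of tubes and their
overlap are arbitrary.  Let `N = ∑ 1_{T i}` and
`X = (1 + L + R)^n (1 + log (1/δ))^(1 - 1/(n² + (n-1)²))`.
* (entropy) `∫ N log⁺ N ≤ C X` with `C = C(n)`.
* (sets) If `∑ |T i ∩ E| ≥ γ`, then `|E| ≥ exp (-(C/γ) X)`.
For Lipschitz families, `|a i - a j| ≤ L |e i - e j|`, this was known with `(1 + L)^(2n²-1)`.
Idea: far away, at a distance about `1 + L + R`, the lines are spread out (Minty), so that the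
directions are a Lipschitz function of the intersection point with a hyperplane there; the
projective map that moves this hyperplane to infinity exchanges directions and positions and gives
a Lipschitz family.
-/

open MeasureTheory Set
open scoped ENNReal InnerProductSpace

namespace Pool.Agent.Results.MP_850839_an.OneSidedLipschitz

/-- The `δ`-tube in `ℝ^n` of length one and radius `δ` with centre `a` and axis parallel to `e`. -/
def tube {n : ℕ} (δ : ℝ) (e a : EuclideanSpace ℝ (Fin n)) : Set (EuclideanSpace ℝ (Fin n)) :=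
  {y | |⟪y - a, e⟫_ℝ| ≤ 1 / 2 ∧ ‖(y - a) - ⟪y - a, e⟫_ℝ • e‖ ≤ δ}

/-- The sum of the indicator functions of the tubes of a family. -/
noncomputable def mult {n : ℕ} {ι : Type} [Fintype ι] (δ : ℝ)
    (e a : ι → EuclideanSpace ℝ (Fin n)) (y : EuclideanSpace ℝ (Fin n)) : ℝ :=
  ∑ i, (tube δ (e i) (a i)).indicator (fun _ => (1 : ℝ)) y

/-- The one-sided Lipschitz condition with constant `L`: `(a i - a j) · (e i - e j)` is bounded below
by `-L |e i - e j|²` for all `i, j`, or bounded above by `L |e i - e j|²` for all `i, j`. -/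
def OneSided {n : ℕ} {ι : Type} (L : ℝ) (e a : ι → EuclideanSpace ℝ (Fin n)) : Prop :=
  (∀ i j, -(L * ‖e i - e j‖ ^ 2) ≤ ⟪a i - a j, e i - e j⟫_ℝ) ∨
    (∀ i j, ⟪a i - a j, e i - e j⟫_ℝ ≤ L * ‖e i - e j‖ ^ 2)

/-- `X = (1 + L + R)^n (1 + log (1/δ))^(1 - 1/(n² + (n-1)²))` -/
noncomputable def loss (n : ℕ) (L R δ : ℝ) : ℝ :=
  (1 + L + R) ^ n *
    (1 + Real.log (1 / δ)) ^ (1 - 1 / ((n : ℝ) ^ 2 + ((n : ℝ) - 1) ^ 2))

theorem loss_eq (d : ℕ) (L R δ : ℝ) : loss (d + 1) L R δ = (1 + L + R) ^ (d + 1) *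
    (1 + Real.log (1 / δ)) ^ (1 - 1 / (2 * (d : ℝ) ^ 2 + 2 * d + 1)) := by
  unfold loss
  have h2 : (((d + 1 : ℕ) : ℝ)) ^ 2 + (((d + 1 : ℕ) : ℝ) - 1) ^ 2 = 2 * (d : ℝ) ^ 2 + 2 * d + 1 := by
    push_cast
    ring
  rw [h2]

theorem tube_neg {n : ℕ} (δ : ℝ) (e a : EuclideanSpace ℝ (Fin n)) : tube δ (-e) a = tube δ e a := by
  ext y
  unfold tube
  simp only [Set.mem_ofPred_eq, inner_neg_right, abs_neg, smul_neg, neg_smul, neg_neg]

theorem mult_neg {n : ℕ} {ι : Type} [Fintype ι] (δ : ℝ) (e a : ι → EuclideanSpace ℝ (Fin n)) :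
    mult δ (fun i => -e i) a = mult δ e a := by
  funext y
  unfold mult
  simp only [tube_neg]

/-- **Entropy of the multiplicity function of a family of tubes with one-sided Lipschitz positions**,
and lower bounds for the sets that meet the tubes in a given mass. -/
theorem result (n : ℕ) (hn : 2 ≤ n) : ∃ C : ℝ, 0 < C ∧ ∀ (ι : Type) [Fintype ι]
    (e a : ι → EuclideanSpace ℝ (Fin n)) (L R δ : ℝ), 0 ≤ L → 0 ≤ R → 0 < δ → δ ≤ 1 →
    (∀ i, ‖e i‖ = 1) → (∀ i j, i ≠ j → δ ≤ ‖e i - e j‖) → (∀ i, ‖a i‖ ≤ R) → OneSided L e a →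
    ∫⁻ y, ENNReal.ofReal (mult δ e a y * Real.posLog (mult δ e a y))
        ≤ ENNReal.ofReal (C * loss n L R δ) ∧
    ∀ (γ : ℝ) (E : Set (EuclideanSpace ℝ (Fin n))), 0 < γ →
      ENNReal.ofReal γ ≤ ∑ i, volume (tube δ (e i) (a i) ∩ E) →
      ENNReal.ofReal (Real.exp (-(C / γ * loss n L R δ))) ≤ volume E := by
  obtain ⟨d, rfl⟩ : ∃ d, n = d + 1 := ⟨n - 1, by omega⟩
  obtain ⟨C1, hC1, h1⟩ := Pool.Agent.R251.Osl.sphere_all (d := d) (by omega)
  obtain ⟨C2, hC2, h2⟩ := Pool.Agent.R251.Osl.sphere_level (d := d) (by omega)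
  refine ⟨C1 + C2, by positivity, ?_⟩
  -- it is enough to treat the first case
  have main : ∀ (ι : Type) [Fintype ι]
    (e a : ι → EuclideanSpace ℝ (Fin (d + 1))) (L R δ : ℝ), 0 ≤ L → 0 ≤ R → 0 < δ → δ ≤ 1 →
    (∀ i, ‖e i‖ = 1) → (∀ i j, i ≠ j → δ ≤ ‖e i - e j‖) → (∀ i, ‖a i‖ ≤ R) →
    (∀ i j, -(L * ‖e i - e j‖ ^ 2) ≤ ⟪a i - a j, e i - e j⟫_ℝ) →
    ∫⁻ y, ENNReal.ofReal (mult δ e a y * Real.posLog (mult δ e a y))
        ≤ ENNReal.ofReal ((C1 + C2) * loss (d + 1) L R δ) ∧
    ∀ (γ : ℝ) (E : Set (EuclideanSpace ℝ (Fin (d + 1)))), 0 < γ →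
      ENNReal.ofReal γ ≤ ∑ i, volume (tube δ (e i) (a i) ∩ E) →
      ENNReal.ofReal (Real.exp (-((C1 + C2) / γ * loss (d + 1) L R δ))) ≤ volume E := by
    intro ι _ e a L R δ hL hR hδ hδ1 he hsep haR hlip
    have hlogδ : 0 ≤ Real.log (1 / δ) := Real.log_nonneg (by rw [le_div_iff₀ hδ]; linarith)
    have hloss : 0 ≤ loss (d + 1) L R δ := by
      rw [loss_eq]
      positivity
    constructor
    · have h3 := h1 ι e a L R δ hL hR hδ hδ1 he hsep haR hlip
      have h4 : ∀ y, mult δ e a y * Real.posLog (mult δ e a y) ≤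
          Pool.Agent.W769.Ent.Ph (Pool.Agent.W769.Ent.Nt e a δ y) := by
        intro y
        have h5 : mult δ e a y = Pool.Agent.W769.Ent.Nt e a δ y := rfl
        rw [h5]
        have h6 := Pool.Agent.W769.Ent.Nt_nonneg e a δ y
        unfold Pool.Agent.W769.Ent.Ph
        nlinarith
      calc ∫⁻ y, ENNReal.ofReal (mult δ e a y * Real.posLog (mult δ e a y))
          ≤ ∫⁻ y, ENNReal.ofReal (Pool.Agent.W769.Ent.Ph (Pool.Agent.W769.Ent.Nt e a δ y)) :=
            lintegral_mono fun y => ENNReal.ofReal_le_ofReal (h4 y)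
        _ ≤ _ := h3
        _ ≤ ENNReal.ofReal ((C1 + C2) * loss (d + 1) L R δ) := by
            apply ENNReal.ofReal_le_ofReal
            have h7 := loss_eq d L R δ
            rw [mul_assoc, ← h7]
            nlinarith
    · intro γ E hγ hint
      have h3 := h2 ι e a L R δ hL hR hδ hδ1 he hsep haR hlip γ E hγ hint
      refine le_trans (ENNReal.ofReal_le_ofReal (Real.exp_le_exp.2 (neg_le_neg ?_))) h3
      have h7 := loss_eq d L R δ
      rw [mul_assoc, ← h7]
      gcongr
      linarith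
  intro ι _ e a L R δ hL hR hδ hδ1 he hsep haR hlip
  rcases hlip with hlip | hlip
  · exact main ι e a L R δ hL hR hδ hδ1 he hsep haR hlip
  · have hnn : ∀ i j, -e i - -e j = -(e i - e j) := fun i j => by abel
    have h3 := main ι (fun i => -e i) a L R δ hL hR hδ hδ1 (fun i => by rw [norm_neg]; exact he i)
      (fun i j hij => by rw [hnn, norm_neg]; exact hsep i j hij) haR (fun i j => by
        rw [hnn, norm_neg, inner_neg_right]
        exact neg_le_neg (hlip i j))
    rw [mult_neg] at h3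
    simp only [tube_neg] at h3
    exact h3

end Pool.Agent.Results.MP_850839_an.OneSidedLipschitz
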