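import Pool.Agent.R134.Kak.Final

set_option autoImplicit false

/-!
# MP_850839: the tube inequality, in the full range and without loss, for reducible families

Work in `ℝ^n = ℝ^d × ℝ`, `n = d + 1`, with its Euclidean norm (`Space d`).  The axis of a tube with
direction `dir v`, i.e. parallel to `(v, 1)`, is given by the point `(β, 0)` where it meets the
hyperplane of height `0`: `v` is the slope and `β` the position of the tube.

All families in the plane are called *reducible* at the scale `δ`.  In higher dimensions a family is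
reducible if in some orthonormal basis of `ℝ^d` the first coordinates of the positions of any two
tubes agree up to `K δ` as soon as the first coordinates of their slopes agree up to `δ`, and if the
subfamilies of the tubes whose first coordinate of the slope lies in an interval `[c δ, (c + 1) δ)`,
`c ∈ ℤ`, are, after forgetting the first coordinate, reducible families in one dimension less (with
bases of `ℝ^(d-1)` which may depend on `c`).

In other words: the tubes whose slopes have the same first coordinate `c δ` lie in one hyperplane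
`x 1 = g(c) + t c δ`, where the function `g` is arbitrary, and form a reducible family there.  In
`ℝ^3` this means: there is one plane for every value of the first coordinate of the slope, and in
these planes the tubes are arbitrary.  No regularity is assumed, and sets of the type of Besicovitch
are allowed.  In `ℝ^n` all *triangular* families are reducible: the families such that, for every
`j < d`, the `j`-th coordinate of the position depends, up to `K δ`, only on the first `j`
coordinates of the slope, up to `δ` (no condition on the last coordinate).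

For reducible families the conjectured inequality holds for all `q > n/(n-1)`, with constants
depending on `n`, `q`, `K` and a bound `S` for the heights of the centres of the tubes.
-/

open MeasureTheory Set ENNReal NNReal

namespace Pool.Agent.Results.MP_850839_an.ReducibleTubes

/-- Euclidean space `ℝ^d`. -/
abbrev Vec (d : ℕ) : Type := EuclideanSpace ℝ (Fin d)

/-- Euclidean space `ℝ^{d+1}`, written as `ℝ^d × ℝ` with the Euclidean norm. -/
abbrev Space (d : ℕ) : Type := WithLp 2 (Vec d × ℝ)

/-- The closed tube of length `1` and radius `δ` with centre `a` and axis direction `e`. -/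
def tube {d : ℕ} (δ : ℝ) (e a : Space d) : Set (Space d) :=
  {y | |inner ℝ (y - a) e| ≤ 1 / 2 ∧ ‖(y - a) - (inner ℝ (y - a) e : ℝ) • e‖ ≤ δ}

/-- The unit vector `(v, 1)/√(1+|v|²)`. -/
noncomputable def dir {d : ℕ} (v : Vec d) : Space d :=
  (√(1 + ‖v‖ ^ 2))⁻¹ • WithLp.toLp 2 (v, (1:ℝ))

/-- Orthonormal coordinates of `ℝ^d`: a linear isometry of `ℝ^d` onto itself. -/
abbrev Iso (d : ℕ) : Type := Vec d ≃ₗᵢ[ℝ] Vec d

/-- The `j`-th coordinate of `x` in the orthonormal coordinates given by `U`. -/
noncomputable def coord {d : ℕ} (U : Iso d) (x : Vec d) (j : Fin d) : ℝ := U x j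

/-- The vector of the coordinates of `x`, in the orthonormal coordinates given by `U`, without the
first one (number `0`). -/
noncomputable def rest {d : ℕ} (U : Iso (d + 1)) (x : Vec (d + 1)) : Vec d :=
  WithLp.toLp 2 (fun j => coord U x j.succ)

/-- The tubes in `J` whose slope has its first coordinate, in the coordinates given by `U`, in the
interval `[c δ, (c + 1) δ)`. -/
def layer (δ : ℝ) {ι : Type} {d : ℕ} (U : Iso (d + 1)) (J : Set ι) (v : ι → Vec (d + 1)) (c : ℤ) :
    Set ι :=
  {i | i ∈ J ∧ c * δ ≤ coord U (v i) 0 ∧ coord U (v i) 0 < (c + 1) * δ}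

/-- The family of the tubes with slopes `v i` and positions `β i`, `i ∈ J`, is reducible at the scale
`δ` with the constant `K`. -/
inductive Reducible (K δ : ℝ) {ι : Type} : (d : ℕ) → Set ι → (ι → Vec d) → (ι → Vec d) → Prop
  | planar (d : ℕ) (J : Set ι) (v β : ι → Vec d) (hd : d ≤ 1) : Reducible K δ d J v β
  | split (d : ℕ) (J : Set ι) (v β : ι → Vec (d + 1)) (U : Iso (d + 1))
      (h1 : ∀ i ∈ J, ∀ i' ∈ J, |coord U (v i) 0 - coord U (v i') 0| ≤ δ →
        |coord U (β i) 0 - coord U (β i') 0| ≤ K * δ)
      (h2 : ∀ c : ℤ, Reducible K δ d (layer δ U J v c) (fun i => rest U (v i))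
        (fun i => rest U (β i))) : Reducible K δ (d + 1) J v β

/-- The positions `β i` are triangular in the orthonormal coordinates given by `U`: if the first `j`
coordinates of two slopes agree up to `δ`, then the `j`-th coordinates of the two positions agree up
to `K δ`, for all `j` but the last. -/
def Triangular (K δ : ℝ) {d : ℕ} {ι : Type} (U : Iso d) (v β : ι → Vec d) : Prop :=
  ∀ (i i' : ι) (j : Fin d), (j : ℕ) + 1 < d →
    (∀ l, l ≤ j → |coord U (v i) l - coord U (v i') l| ≤ δ) →
    |coord U (β i) j - coord U (β i') j| ≤ K * δ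

theorem Reducible.of_forall {K δ : ℝ} (hδ : 0 < δ) {ι : Type} : ∀ (d : ℕ) (J : Set ι) (v β : ι → Vec d),
    (∀ i ∈ J, ∀ i' ∈ J, ∀ j : Fin d, (j : ℕ) + 1 < d → (∀ l, l ≤ j → |v i l - v i' l| ≤ δ) →
      |β i j - β i' j| ≤ K * δ) → Reducible K δ d J v β
  | 0, _, _, _, _ => Reducible.planar _ _ _ _ (by omega)
  | 1, _, _, _, _ => Reducible.planar _ _ _ _ (by omega)
  | d + 2, J, v, β, h => by
    refine Reducible.split _ _ _ _ (LinearIsometryEquiv.refl ℝ _) ?_ ?_
    · intro i hi i' hi' h0
      apply h i hi i' hi' 0 (by simp)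
      intro l hl
      have : l = 0 := le_antisymm hl (Fin.zero_le _)
      rw [this]
      exact h0
    · intro c
      apply Reducible.of_forall hδ (d + 1)
      intro i hi i' hi' j hjd hj
      obtain ⟨hiJ, h1, h2⟩ := hi
      obtain ⟨hiJ', h3, h4⟩ := hi'
      apply h i hiJ i' hiJ' j.succ (by rw [Fin.val_succ]; omega)
      intro l hl
      refine Fin.cases ?_ (fun l => ?_) l hl
      · intro _
        have e1 : coord (LinearIsometryEquiv.refl ℝ (Vec (d + 2))) (v i) 0 = v i 0 := rfl
        have e2 : coord (LinearIsometryEquiv.refl ℝ (Vec (d + 2))) (v i') 0 = v i' 0 := rfl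
        rw [e1] at h1 h2
        rw [e2] at h3 h4
        rw [abs_le]
        constructor <;> linarith
      · intro hl'
        exact hj l (Fin.succ_le_succ_iff.1 hl')

/-- Triangular families are reducible. -/
theorem Triangular.reducible {K δ : ℝ} (hδ : 0 < δ) {d : ℕ} {ι : Type} {U : Iso d}
    {v β : ι → Vec d} (h : Triangular K δ U v β) : Reducible K δ d univ v β := by
  match d with
  | 0 => exact Reducible.planar _ _ _ _ (by omega)
  | 1 => exact Reducible.planar _ _ _ _ (by omega)
  | d + 2 =>
    refine Reducible.split _ _ _ _ U ?_ ?_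
    · intro i _ i' _ h0
      apply h i i' 0 (by simp)
      intro l hl
      have : l = 0 := le_antisymm hl (Fin.zero_le _)
      rw [this]
      exact h0
    · intro c
      apply Reducible.of_forall hδ (d + 1)
      intro i hi i' hi' j hjd hj
      obtain ⟨-, h1, h2⟩ := hi
      obtain ⟨-, h3, h4⟩ := hi'
      apply h i i' j.succ (by rw [Fin.val_succ]; omega)
      intro l hl
      refine Fin.cases ?_ (fun l => ?_) l hl
      · intro _
        rw [abs_le]
        constructor <;> linarith
      · intro hl'
        exact hj l (Fin.succ_le_succ_iff.1 hl')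

theorem Reducible.toRed {K δ : ℝ} (hδ : 0 < δ) {ι : Type} : ∀ (d : ℕ) (J : Finset ι) (v β : ι → Vec d),
    Reducible K δ d (J : Set ι) v β →
    Pool.Agent.R134.Kak.Red K d J (fun i => δ⁻¹ • v i) (fun i => δ⁻¹ • β i)
  | 0, _, _, _, _ => trivial
  | 1, _, _, _, _ => trivial
  | d + 2, J, v, β, h => by
    classical
    obtain ⟨U, h1, h2⟩ : ∃ U : Vec (d + 2) ≃ₗᵢ[ℝ] Vec (d + 2),
        (∀ i ∈ (J : Set ι), ∀ i' ∈ (J : Set ι), |U (v i) 0 - U (v i') 0| ≤ δ →
          |U (β i) 0 - U (β i') 0| ≤ K * δ) ∧
        ∀ c : ℤ, Reducible K δ (d + 1) (layer δ U J v c) (fun i => rest U (v i))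
          (fun i => rest U (β i)) := by
      cases h with
      | planar _ _ _ _ hd => omega
      | split _ _ _ _ U h1 h2 => exact ⟨U, h1, h2⟩
    have hδ' : 0 < δ⁻¹ := inv_pos.2 hδ
    have hsc : ∀ x : Vec (d + 2), U (δ⁻¹ • x) 0 = δ⁻¹ * U x 0 := by
      intro x
      rw [map_smul]
      rfl
    refine ⟨U, ?_, ?_⟩
    · intro i hi i' hi' h0
      rw [hsc, hsc, ← mul_sub, abs_mul, abs_of_pos hδ'] at h0 ⊢
      have h3 := h1 i (Finset.mem_coe.2 hi) i' (Finset.mem_coe.2 hi') (by
        rw [inv_mul_le_iff₀ hδ] at h0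
        linarith)
      rw [inv_mul_le_iff₀ hδ]
      linarith
    · intro c
      have h3 := h2 c
      have e : layer δ U (J : Set ι) v c =
          ((J.filter (fun i => ⌊U (δ⁻¹ • v i) 0⌋ = c) : Finset ι) : Set ι) := by
        ext i
        show i ∈ (J : Set ι) ∧ c * δ ≤ U (v i) 0 ∧ U (v i) 0 < (c + 1) * δ ↔ _
        rw [Finset.mem_coe, Finset.mem_coe, Finset.mem_filter, hsc, Int.floor_eq_iff,
          inv_mul_eq_div, le_div_iff₀ hδ, div_lt_iff₀ hδ]
      rw [e] at h3
      have ht : ∀ w : ι → Vec (d + 2), (fun i => Pool.Agent.R134.Kak.tl (U (δ⁻¹ • w i))) =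
          fun i => δ⁻¹ • rest U (w i) := by
        intro w
        funext i
        rw [map_smul]
        rfl
      show Pool.Agent.R134.Kak.Red K (d + 1) (J.filter (fun i => ⌊U (δ⁻¹ • v i) 0⌋ = c))
        (fun i => Pool.Agent.R134.Kak.tl (U (δ⁻¹ • v i))) (fun i => Pool.Agent.R134.Kak.tl (U (δ⁻¹ • β i)))
      rw [ht v, ht β]
      exact Reducible.toRed hδ (d + 1) _ _ _ h3

/-- The slopes `v i` and the heights `s i` of the centres are admissible: `|v i| ≤ 1`, `|s i| ≤ S`, and
the directions of the tubes are `δ`-separated. -/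
def Admissible (S δ : ℝ) {d : ℕ} {ι : Type} (v : ι → Vec d) (s : ι → ℝ) : Prop :=
  (∀ i, ‖v i‖ ≤ 1) ∧ (∀ i, |s i| ≤ S) ∧ ∀ i j, i ≠ j → δ ≤ ‖dir (v i) - dir (v j)‖

/-- The sum of the indicators of the tubes with slopes `v i`, positions `β i` and centres of height
`s i`. -/
noncomputable def tubeSum (δ : ℝ) {d : ℕ} {ι : Type} [Fintype ι] (v β : ι → Vec d) (s : ι → ℝ)
    (y : Space d) : ℝ :=
  ∑ i, (tube δ (dir (v i)) (WithLp.toLp 2 (β i + s i • v i, s i))).indicator (fun _ => (1 : ℝ)) y

/-- The inequality of the problem for the tubes, with the constant `C`. -/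
def TubeInequality (q C δ : ℝ) {d : ℕ} {ι : Type} [Fintype ι] (v β : ι → Vec d) (s : ι → ℝ) : Prop :=
  eLpNorm (tubeSum δ v β s) (ENNReal.ofReal q) volume ≤
    ENNReal.ofReal (C * δ ^ (d / q) * (Fintype.card ι : ℝ) ^ (1 - 1 / (q * d)))

/-- **The tube inequality for reducible families, in the full range `q > n/(n-1)`, `n = d + 1`,
without any loss in `δ`.**  The second part says that the theorem applies to triangular families. -/
theorem result (d : ℕ) (hd : 1 ≤ d) (q : ℝ) (hq : ((d : ℝ) + 1) / d < q) (K S : ℝ≥0) :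
    (∃ C : ℝ, 0 < C ∧ ∀ δ : ℝ, 0 < δ → δ < 1 → ∀ (ι : Type) [Fintype ι] (v β : ι → Vec d) (s : ι → ℝ),
      Admissible S δ v s → Reducible K δ d univ v β → TubeInequality q C δ v β s) ∧
    ∀ δ : ℝ, 0 < δ → ∀ (ι : Type) (v β : ι → Vec d) (U : Iso d),
      Triangular K δ U v β → Reducible K δ d univ v β := by
  refine ⟨?_, fun δ hδ ι v β U h => h.reducible hδ⟩
  obtain ⟨e, rfl⟩ : ∃ e, d = e + 1 := ⟨d - 1, by omega⟩
  have hcast : ((e + 1 : ℕ) : ℝ) = (e : ℝ) + 1 := by push_cast; rfl
  have he : (0 : ℝ) < (e : ℝ) + 1 := by positivity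
  rw [hcast] at hq
  have hq' : 1 + 1 / ((e : ℝ) + 1) < q := by
    refine lt_of_le_of_lt (le_of_eq ?_) hq
    field_simp
  obtain ⟨C, hC, h⟩ := Pool.Agent.R134.Kak.tubes e hq' K S
  refine ⟨C, hC, ?_⟩
  intro δ hδ hδ1 ι _ v β s ⟨hv, hs, hsep⟩ hR
  have h2 := h δ hδ hδ1 ι v β s hv hs hsep (by
    apply Reducible.toRed hδ (e + 1) Finset.univ v β
    rw [Finset.coe_univ]
    exact hR)
  unfold TubeInequality
  rw [hcast]
  exact h2

end Pool.Agent.Results.MP_850839_an.ReducibleTubes
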