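import Pool.Agent.R251.Smo.Unif

set_option autoImplicit false

/-!
# The Kakeya inequality for tubes after small independent translations

Every finite family of `δ`-tubes with `δ`-separated orientations is perturbed by independent random
translations of size at most `ρ` (for instance uniform in a ball of radius `ρ`).  If the inequality
of the problem is known at some exponent `q0 ≤ 2`, then after the perturbation it holds on average
at every exponent `q`, `n/(n-1) < q ≤ q0`, as soon as `ρ ≥ δ^κ`, with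
`κ = (1 - 1/x) / (1 - 1/x0)`, `x = (n-1)(q-1)`, `x0 = (n-1)(q0-1)`.  Hence every exponent of the
conjectured range `q > n/(n-1)` is reached, in every dimension, by translations of size a positive
power of `δ`.
-/

open MeasureTheory Set Filter Topology ProbabilityTheory
open scoped ENNReal NNReal

namespace Pool.Agent.Results.MP_850839_an.SmoothedTranslations

/-- The space `ℝ^n`. -/
abbrev Rn (n : ℕ) : Type := EuclideanSpace ℝ (Fin n)

/-- The `δ`-tube with centre `a` and direction `e` (a unit vector): the closed cylinder of length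
`1` and radius `δ` around the segment with centre `a` and direction `e`. -/
def tube {n : ℕ} (δ : ℝ) (a e : Rn n) : Set (Rn n) :=
  {y | |inner ℝ (y - a) e| ≤ 1 / 2 ∧ ‖(y - a) - (inner ℝ (y - a) e) • e‖ ≤ δ}

/-- The number of the `δ`-tubes with centres `b i` and directions `e i` that contain `x`. -/
noncomputable def mult {n : ℕ} {ι : Type} [Fintype ι] (δ : ℝ) (b e : ι → Rn n) (x : Rn n) : ℝ :=
  ∑ i, (tube δ (b i) (e i)).indicator (fun _ => (1 : ℝ)) x

/-- The `L^q` norm of the sum of the indicator functions of the tubes. -/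
noncomputable def size {n : ℕ} {ι : Type} [Fintype ι] (q δ : ℝ) (b e : ι → Rn n) : ℝ≥0∞ :=
  eLpNorm (mult δ b e) (ENNReal.ofReal q) volume

/-- The right-hand side `δ^((n-1)/q) N^(1-1/(q(n-1)))` of the conjectured inequality for `N` tubes,
without the constant. -/
noncomputable def rhs (n : ℕ) (q δ : ℝ) (N : ℕ) : ℝ :=
  δ ^ (((n : ℝ) - 1) / q) * (N : ℝ) ^ (1 - 1 / (q * ((n : ℝ) - 1)))

/-- The conjectured inequality, with the constant `C`, for the `δ`-tubes with centres `b i` and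
directions `e i`. -/
def KakeyaBound {n : ℕ} {ι : Type} [Fintype ι] (q C δ : ℝ) (b e : ι → Rn n) : Prop :=
  size q δ b e ≤ ENNReal.ofReal (C * rhs n q δ (Fintype.card ι))

/-- `0 < δ < 1` and `e` is a `δ`-separated family of unit vectors. -/
def Separated {n : ℕ} {ι : Type} (δ : ℝ) (e : ι → Rn n) : Prop :=
  0 < δ ∧ δ < 1 ∧ (∀ i, ‖e i‖ = 1) ∧ ∀ i j, i ≠ j → δ ≤ ‖e i - e j‖

/-- The inequality of the problem at the exponent `q`, for all families of tubes in `ℝ^n`. -/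
def KakeyaAt (n : ℕ) (q : ℝ) : Prop :=
  ∃ C : ℝ, 0 < C ∧ ∀ (ι : Type) [Fintype ι] (a e : ι → Rn n) (δ : ℝ), Separated δ e →
    KakeyaBound q C δ a e

/-- `X i` are pairwise independent random vectors of length at most `ρ` whose laws are spread at the
scale `ρ`: the probability of every `δ`-tube is at most `A (δ/ρ)^(n-1)`. -/
structure Shifts {n : ℕ} {ι Ω : Type} [MeasurableSpace Ω] (P : Measure Ω) (X : ι → Ω → Rn n)
    (A ρ δ : ℝ) : Prop where
  measurable : ∀ i, Measurable (X i)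
  indep : ∀ i j, i ≠ j → IndepFun (X i) (X j) P
  small : ∀ i, ∀ᵐ ω ∂P, ‖X i ω‖ ≤ ρ
  spread : ∀ i (b u : Rn n), ‖u‖ = 1 →
    P {ω | X i ω ∈ tube δ b u} ≤ ENNReal.ofReal (A * (δ / ρ) ^ (n - 1))

/-- **The inequality after translations of size `ρ ≥ δ^κ`**: for ALL families of tubes, on average
over the translations (for the `q`-th powers), and for some translations. -/
def Smoothed (n : ℕ) (q κ : ℝ) : Prop :=
  ∃ C : ℝ, 0 < C ∧ ∀ (δ ρ : ℝ), δ ^ κ ≤ ρ → ρ < 1 / 2 →
    ∀ (ι : Type) [Fintype ι] (a e : ι → Rn n), Separated δ e →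
    (∀ (Ω : Type) [MeasurableSpace Ω] (P : Measure Ω) [IsProbabilityMeasure P] (X : ι → Ω → Rn n)
      (A : ℝ), 1 ≤ A → Shifts P X A ρ δ →
      ∫⁻ ω, size q δ (fun i => a i + X i ω) e ^ q ∂P ≤
        ENNReal.ofReal (C * A ^ q * rhs n q δ (Fintype.card ι) ^ q)) ∧
    ∃ x : ι → Rn n, (∀ i, ‖x i‖ ≤ ρ) ∧ KakeyaBound q C δ (fun i => a i + x i) e

/-- The exponent `κ = (1 - 1/x) / (1 - 1/x0)` with `x = (n-1)(q-1)` and `x0 = (n-1)(q0-1)`. -/
noncomputable def kappa (n : ℕ) (q q0 : ℝ) : ℝ :=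
  (1 - 1 / (((n : ℝ) - 1) * (q - 1))) / (1 - 1 / (((n : ℝ) - 1) * (q0 - 1)))

theorem size_pow {n : ℕ} {ι : Type} [Fintype ι] {q δ : ℝ} (hq : 0 < q) (b e : ι → Rn n) :
    size q δ b e ^ q = ∫⁻ x, Y254.mult (fun i => Y254.tube δ (b i) (e i)) x ^ q := by
  unfold size
  rw [eLpNorm_eq_lintegral_rpow_enorm_toReal (by
    rw [ne_eq, ENNReal.ofReal_eq_zero, not_le]; exact hq) ENNReal.ofReal_ne_top,
    ENNReal.toReal_ofReal hq.le, ← ENNReal.rpow_mul, one_div, inv_mul_cancel₀ hq.ne',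
    ENNReal.rpow_one]
  apply lintegral_congr
  intro x
  congr 1
  unfold mult
  rw [Real.enorm_of_nonneg (Finset.sum_nonneg fun i _ =>
    Set.indicator_nonneg (fun _ _ => zero_le_one) _),
    ENNReal.ofReal_sum_of_nonneg fun i _ => Set.indicator_nonneg (fun _ _ => zero_le_one) _]
  unfold Y254.mult
  refine Finset.sum_congr rfl fun i _ => ?_
  by_cases hx : x ∈ tube δ (b i) (e i)
  · have hx' : x ∈ Y254.tube δ (b i) (e i) := hx
    rw [Set.indicator_of_mem hx, Set.indicator_of_mem hx', ENNReal.ofReal_one]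
    rfl
  · have hx' : x ∉ Y254.tube δ (b i) (e i) := hx
    rw [Set.indicator_of_notMem hx, Set.indicator_of_notMem hx', ENNReal.ofReal_zero]

theorem rhs_pow {n : ℕ} (hn : 3 ≤ n) {q δ : ℝ} (hq : 0 < q) (hδ : 0 < δ) (N : ℕ) :
    rhs n q δ N ^ q = δ ^ (n - 1) * (N : ℝ) ^ (q - 1 / ((n : ℝ) - 1)) := by
  have hnr : (3 : ℝ) ≤ n := by exact_mod_cast hn
  have hd0 : (0 : ℝ) < (n : ℝ) - 1 := by linarith
  unfold rhs
  rw [Real.mul_rpow (by positivity) (by positivity), ← Real.rpow_mul hδ.le,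
    ← Real.rpow_mul (by positivity), ← Real.rpow_natCast δ (n - 1), Nat.cast_sub (by omega),
    Nat.cast_one]
  congr 2
  · field_simp
  · field_simp

theorem rhs_nonneg {n : ℕ} {q δ : ℝ} (hδ : 0 < δ) (N : ℕ) : 0 ≤ rhs n q δ N := by
  unfold rhs; positivity

theorem core {n : ℕ} (hn : 3 ≤ n) {q q0 κ C : ℝ} (hq : (n : ℝ) / ((n : ℝ) - 1) < q)
    (hqq : q ≤ q0) (hq0 : q0 ≤ 2) (hC : 0 ≤ C) (hK : R251.Smo.KAt n q0 C) (hκ1 : κ ≤ 1)
    (hκ : κ * (1 - 1 / (((n : ℝ) - 1) * (q0 - 1))) ≤ 1 - 1 / (((n : ℝ) - 1) * (q - 1))) :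
    Smoothed n q κ := by
  have hnr : (3 : ℝ) ≤ n := by exact_mod_cast hn
  have hd0 : (0 : ℝ) < (n : ℝ) - 1 := by linarith
  have e1 : (n : ℝ) / ((n : ℝ) - 1) = 1 + 1 / ((n : ℝ) - 1) := by field_simp; ring
  rw [e1] at hq
  have hp : 0 < 1 / ((n : ℝ) - 1) := by positivity
  have hq1 : 0 < q - 1 := by linarith
  have hq01 : 0 < q0 - 1 := by linarith
  have hq00 : 0 < q := by linarith
  set x : ℝ := ((n : ℝ) - 1) * (q - 1) with hx
  set x0 : ℝ := ((n : ℝ) - 1) * (q0 - 1) with hx0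
  have hx1 : 1 < x := by
    have : 1 / ((n : ℝ) - 1) < q - 1 := by linarith
    rw [div_lt_iff₀ hd0] at this
    rw [hx]; linarith
  have hxx : x ≤ x0 := by
    rw [hx, hx0]; gcongr
  have hx01 : 1 < x0 := by linarith
  set θ : ℝ := (q - 1) / (q0 - 1) with hθ
  have hθx : θ = x / x0 := by
    rw [hθ, hx, hx0]; field_simp
  have hθ0 : 0 ≤ θ := by positivity
  have hθ1 : θ ≤ 1 := by rw [hθ, div_le_one hq01]; linarith
  obtain ⟨K, hK1, hsm⟩ := R251.Smo.smoothed hn
  set A0 : ℝ := max 1 (Y254.Cv n / TH705.RR.vb n) with hA0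
  have hA01 : 1 ≤ A0 := le_max_left _ _
  have hA0q : 1 ≤ A0 ^ q := Real.one_le_rpow hA01 hq00.le
  have hKC : 1 ≤ K * (1 + C) := by nlinarith
  set D : ℝ := 2 * (K * (1 + C) * A0 ^ q) with hD
  have hD1 : 1 ≤ D := by
    rw [hD]; nlinarith
  have hD0 : 0 < D := by linarith
  have havg : ∀ (δ ρ : ℝ), δ ^ κ ≤ ρ → ρ < 1 / 2 →
    ∀ (ι : Type) [Fintype ι] (a e : ι → Rn n), Separated δ e →
    ∀ (Ω : Type) [MeasurableSpace Ω] (P : Measure Ω) [IsProbabilityMeasure P] (X : ι → Ω → Rn n)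
      (A : ℝ), 1 ≤ A → Shifts P X A ρ δ →
      ∫⁻ ω, size q δ (fun i => a i + X i ω) e ^ q ∂P ≤
        ENNReal.ofReal (K * (1 + C) * A ^ q * rhs n q δ (Fintype.card ι) ^ q) := by
    intro δ ρ hδρ hρ ι _ a e hsep Ω _ P _ X A hA hX
    obtain ⟨hδ, hδ1, he, hs⟩ := hsep
    have hδρ' : δ ≤ ρ := by
      refine le_trans ?_ hδρ
      calc δ = δ ^ (1:ℝ) := (Real.rpow_one δ).symm
        _ ≤ δ ^ κ := Real.rpow_le_rpow_of_exponent_ge hδ hδ1.le hκ1
    simp only [size_pow hq00]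
    rw [rhs_pow hn hq00 hδ]
    refine hsm q0 C (by linarith) hC hK q κ θ hq.le (by linarith) hθ0 hθ1 ?_ ?_ ?_ A δ ρ hA hδ
      hδ1 hδρ' hδρ (by linarith) ι a e he hs Ω P X hX.measurable hX.indep hX.small hX.spread
    · rw [hθ]; field_simp; ring
    · rw [hθx, sub_nonneg, div_le_iff₀ (by linarith)]
      nlinarith
    · have h1 : x - θ = x * (1 - 1 / x0) := by rw [hθx]; ring
      have h2 : x - 1 = x * (1 - 1 / x) := by field_simp
      rw [h1, h2]
      calc κ * (x * (1 - 1 / x0)) = x * (κ * (1 - 1 / x0)) := by ring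
        _ ≤ _ := by gcongr
  refine ⟨D, hD0, ?_⟩
  intro δ ρ hδρ hρ ι _ a e hsep
  have hR0 : 0 ≤ rhs n q δ (Fintype.card ι) := rhs_nonneg hsep.1 _
  constructor
  · intro Ω _ P _ X A hA hX
    refine (havg δ ρ hδρ hρ ι a e hsep Ω P X A hA hX).trans (ENNReal.ofReal_le_ofReal ?_)
    have hAq : 1 ≤ A ^ q := Real.one_le_rpow hA hq00.le
    have h1 : K * (1 + C) ≤ D := by rw [hD]; nlinarith
    gcongr
  · have hρ0 : 0 < ρ := lt_of_lt_of_le (Real.rpow_pos_of_pos hsep.1 _) hδρ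
    obtain ⟨hP, h1, h2, h3, h4⟩ := R251.Smo.unif_model (n := n) (by omega) hρ0 hsep.1 ι
    have h5 := havg δ ρ hδρ hρ ι a e hsep (ι → Rn n) (Measure.pi fun _ : ι => R251.Smo.unif n ρ)
      (fun i ω => ω i) A0 hA01 ⟨h1, h2, h3, h4⟩
    set R : ℝ := rhs n q δ (Fintype.card ι) with hR
    -- some translations
    rcases isEmpty_or_nonempty ι with hι | hι
    · refine ⟨fun _ => 0, fun i => (hι.false i).elim, ?_⟩
      have h0 : mult δ (fun i => a i + (0 : Rn n)) e = 0 := by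
        funext x
        unfold mult
        rw [Finset.univ_eq_empty, Finset.sum_empty]
        rfl
      unfold KakeyaBound size
      rw [h0, eLpNorm_zero]
      exact zero_le
    have hRpos : 0 < R := by
      rw [hR]
      unfold rhs
      have := hsep.1
      have hc : 0 < (Fintype.card ι : ℝ) := by exact_mod_cast Fintype.card_pos
      positivity
    by_contra hcon
    push Not at hcon
    have h6 : ∀ᵐ ω ∂(Measure.pi fun _ : ι => R251.Smo.unif n ρ),
        ENNReal.ofReal (D * R ^ q) ≤ size q δ (fun i => a i + ω i) e ^ q := by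
      have h7 : ∀ᵐ ω ∂(Measure.pi fun _ : ι => R251.Smo.unif n ρ), ∀ i, ‖ω i‖ ≤ ρ :=
        (ae_all_iff).2 h3
      filter_upwards [h7] with ω hω
      have h8 := hcon ω hω
      unfold KakeyaBound at h8
      rw [not_le] at h8
      have h9 : ENNReal.ofReal ((D * R) ^ q) ≤ size q δ (fun i => a i + ω i) e ^ q := by
        rw [← ENNReal.ofReal_rpow_of_nonneg (by positivity) hq00.le]
        exact ENNReal.rpow_le_rpow h8.le hq00.le
      refine le_trans (ENNReal.ofReal_le_ofReal ?_) h9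
      rw [Real.mul_rpow hD0.le hR0]
      gcongr
      calc D = D ^ (1:ℝ) := (Real.rpow_one D).symm
        _ ≤ D ^ q := Real.rpow_le_rpow_of_exponent_le hD1 (by linarith)
    have h10 : ENNReal.ofReal (D * R ^ q) ≤ ENNReal.ofReal (K * (1 + C) * A0 ^ q * R ^ q) := by
      calc ENNReal.ofReal (D * R ^ q) = ∫⁻ _ω, ENNReal.ofReal (D * R ^ q)
            ∂(Measure.pi fun _ : ι => R251.Smo.unif n ρ) := by
            rw [lintegral_const, measure_univ, mul_one]
        _ ≤ _ := (lintegral_mono_ae h6).trans h5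
    rw [ENNReal.ofReal_le_ofReal_iff (by positivity)] at h10
    have h11 : 0 < R ^ q := by positivity
    have h12 : 0 < K * (1 + C) * A0 ^ q := by positivity
    have h13 : D * R ^ q = 2 * (K * (1 + C) * A0 ^ q * R ^ q) := by rw [hD]; ring
    rw [h13] at h10
    have : 0 < K * (1 + C) * A0 ^ q * R ^ q := by positivity
    linarith

/-- **Smoothed analysis of the Kakeya inequality for tubes.** -/
theorem result (n : ℕ) (hn : 3 ≤ n) :
    -- (1) the general principle: a known exponent `q0 ≤ 2` gives all exponents after translations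
    (∀ q0 q : ℝ, (n : ℝ) / ((n : ℝ) - 1) < q → q ≤ q0 → q0 ≤ 2 → KakeyaAt n q0 →
      Smoothed n q (kappa n q q0)) ∧
    -- (2) all dimensions, unconditionally
    (∀ q κ : ℝ, (n : ℝ) / ((n : ℝ) - 1) < q → q ≤ 1 + 2 / n → κ < kappa n q (1 + 2 / n) →
      Smoothed n q κ) ∧
    -- (3) dimensions `n ≥ 10`, unconditionally
    (10 ≤ n → ∀ q : ℝ, (n : ℝ) / ((n : ℝ) - 1) < q → q ≤ 1 + 1.676 / ((n : ℝ) - 1) →
      Smoothed n q (kappa n q (1 + 1.676 / ((n : ℝ) - 1)))) ∧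
    -- (4) independent uniform translations in a ball of radius `ρ` are an example
    (∃ A : ℝ, 1 ≤ A ∧ ∀ (δ ρ : ℝ) (ι : Type) [Fintype ι], 0 < δ → 0 < ρ →
      Shifts (Measure.pi fun _ : ι => cond (volume : Measure (Rn n)) (Metric.closedBall 0 ρ))
        (fun i ω => ω i) A ρ δ) := by
  have hnr : (3 : ℝ) ≤ n := by exact_mod_cast hn
  have hd0 : (0 : ℝ) < (n : ℝ) - 1 := by linarith
  have hn0 : (0 : ℝ) < n := by linarith
  have e1 : (n : ℝ) / ((n : ℝ) - 1) = 1 + 1 / ((n : ℝ) - 1) := by field_simp; ring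
  have hx1 : ∀ q : ℝ, (n : ℝ) / ((n : ℝ) - 1) < q → 1 < ((n : ℝ) - 1) * (q - 1) := by
    intro q hq
    rw [e1] at hq
    have : 1 / ((n : ℝ) - 1) < q - 1 := by linarith
    rw [div_lt_iff₀ hd0] at this
    linarith
  have hpos : ∀ q : ℝ, (n : ℝ) / ((n : ℝ) - 1) < q → 0 < 1 - 1 / (((n : ℝ) - 1) * (q - 1)) := by
    intro q hq
    have h1 := hx1 q hq
    rw [sub_pos, div_lt_one (by linarith)]
    exact h1
  have hle1 : ∀ q q0 : ℝ, (n : ℝ) / ((n : ℝ) - 1) < q → q ≤ q0 → kappa n q q0 ≤ 1 := by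
    intro q q0 hq hqq
    have h1 := hx1 q hq
    unfold kappa
    rw [div_le_one (hpos q0 (lt_of_lt_of_le hq hqq))]
    have h2 : 1 / (((n : ℝ) - 1) * (q0 - 1)) ≤ 1 / (((n : ℝ) - 1) * (q - 1)) := by
      apply one_div_le_one_div_of_le (by linarith)
      gcongr
    linarith
  have hkap : ∀ q q0 : ℝ, (n : ℝ) / ((n : ℝ) - 1) < q → q ≤ q0 →
      kappa n q q0 * (1 - 1 / (((n : ℝ) - 1) * (q0 - 1))) = 1 - 1 / (((n : ℝ) - 1) * (q - 1)) := by
    intro q q0 hq hqq
    unfold kappa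
    exact div_mul_cancel₀ _ (hpos q0 (lt_of_lt_of_le hq hqq)).ne'
  refine ⟨?_, ?_, ?_, ?_⟩
  · intro q0 q hq hqq hq0 hKA
    have hq00 : 0 < q0 := by
      have h1 := hx1 q0 (lt_of_lt_of_le hq hqq)
      by_contra hcon
      push Not at hcon
      nlinarith
    obtain ⟨C, hC, h⟩ := hKA
    have hK : R251.Smo.KAt n q0 (C ^ q0) := by
      intro δ hδ hδ1 ι _ a e he hsep
      have h1 := h ι a e δ ⟨hδ, hδ1, he, hsep⟩
      have h2 := ENNReal.rpow_le_rpow h1 hq00.le
      rw [size_pow hq00, ENNReal.ofReal_rpow_of_nonneg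
        (mul_nonneg hC.le (rhs_nonneg hδ _)) hq00.le, Real.mul_rpow hC.le (rhs_nonneg hδ _),
        rhs_pow hn hq00 hδ] at h2
      exact h2
    exact core hn hq hqq hq0 (by positivity) hK (hle1 q q0 hq hqq) (hkap q q0 hq hqq).le
  · intro q κ hq hq2 hκ
    set q1 : ℝ := 1 + 2 / n with hq1
    have hκ1 : κ ≤ 1 := hκ.le.trans (hle1 q q1 hq hq2)
    have hq1' := lt_of_lt_of_le hq hq2
    have hstrict : κ * (1 - 1 / (((n : ℝ) - 1) * (q1 - 1))) < 1 - 1 / (((n : ℝ) - 1) * (q - 1)) := by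
      rw [← hkap q q1 hq hq2]
      exact mul_lt_mul_of_pos_right hκ (hpos q1 hq1')
    have hcont : ContinuousAt (fun y : ℝ => κ * (1 - 1 / (((n : ℝ) - 1) * (y - 1)))) q1 := by
      have h1 : ((n : ℝ) - 1) * (q1 - 1) ≠ 0 := by
        have := hx1 q1 hq1'
        positivity
      fun_prop (disch := exact h1)
    have hev := hcont.eventually (gt_mem_nhds hstrict)
    have hlt2 : q1 < 2 := by
      rw [hq1]
      have : 2 / (n : ℝ) < 1 := by rw [div_lt_one hn0]; linarith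
      linarith
    obtain ⟨q0, h1, h2⟩ := ((hev.filter_mono (nhdsWithin_le_nhds (s := Ioi q1))).and
      (Ioo_mem_nhdsGT hlt2)).exists
    obtain ⟨C, hC, hK⟩ := R251.Smo.known_wolff hn h2.1
    exact core hn hq (hq2.trans h2.1.le) h2.2.le hC hK hκ1 h1.le
  · intro hn10 q hq hqq
    have hnr10 : (10 : ℝ) ≤ n := by exact_mod_cast hn10
    obtain ⟨C, hC, hK⟩ := R251.Smo.known_hybrid hn10
    have h2 : 1 + 1.676 / ((n : ℝ) - 1) ≤ 2 := by
      have : 1.676 / ((n : ℝ) - 1) ≤ 1 := by rw [div_le_one hd0]; linarith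
      linarith
    exact core hn hq hqq h2 hC hK (hle1 q _ hq hqq) (hkap q _ hq hqq).le
  · refine ⟨max 1 (Y254.Cv n / TH705.RR.vb n), le_max_left _ _, ?_⟩
    intro δ ρ ι _ hδ hρ
    obtain ⟨_, h1, h2, h3, h4⟩ := R251.Smo.unif_model (n := n) (by omega) hρ hδ ι
    exact ⟨h1, h2, h3, h4⟩

end Pool.Agent.Results.MP_850839_an.SmoothedTranslations
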